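import Pool.Agent.H32.RQ.Targets

/-!
# Row KPL of hpq_modules: the Fourier transform of the local indicator
-/

set_option autoImplicit false

namespace Pool.Agent.H72.RQ

open Finset Pool.Agent.H32.RQ

theorem char_sum (Q W : ℕ) [NeZero Q] (hW : 1 ≤ W) (hWQ : W ∣ Q) (v : ZMod Q) :
    ∑ a ∈ range W, (ZMod.stdAddChar ((((a * (Q / W) : ℕ) : ZMod Q)) * v) : ℂ) =
      if W ∣ v.val then (W : ℂ) else 0 := by
  obtain ⟨h, hh⟩ := hWQ
  have hQ : 0 < Q := Nat.pos_of_ne_zero (NeZero.ne Q)
  have hdiv : Q / W = h := by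
    rw [hh]
    exact Nat.mul_div_cancel_left h (by omega)
  have hh0 : 0 < h := by
    rcases Nat.eq_zero_or_pos h with h0 | h0
    · rw [h0, mul_zero] at hh
      omega
    · exact h0
  set ζ : ℂ := ZMod.stdAddChar ((h : ZMod Q) * v) with hζ
  have hpow : ∀ a : ℕ, (ZMod.stdAddChar ((((a * (Q / W) : ℕ) : ZMod Q)) * v) : ℂ) = ζ ^ a := by
    intro a
    rw [hζ, ← AddChar.map_nsmul_eq_pow, hdiv]
    congr 1
    rw [nsmul_eq_mul]
    push_cast
    ring
  rw [Finset.sum_congr rfl fun a _ => hpow a]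
  have hv : ((v.val : ℕ) : ZMod Q) = v := ZMod.natCast_zmod_val v
  have hzero : (h : ZMod Q) * v = 0 ↔ W ∣ v.val := by
    have e : (h : ZMod Q) * v = ((h * v.val : ℕ) : ZMod Q) := by
      push_cast
      rw [hv]
    rw [e, ZMod.natCast_eq_zero_iff]
    constructor
    · intro hd
      have : h * W ∣ h * v.val := by
        have e2 : h * W = Q := by rw [hh, mul_comm]
        rw [e2]
        exact hd
      exact (Nat.mul_dvd_mul_iff_left hh0).1 this
    · intro hd
      have e2 : Q = h * W := by rw [hh, mul_comm]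
      have : h * W ∣ h * v.val := Nat.mul_dvd_mul_left h hd
      rw [← e2] at this
      exact this
  split_ifs with hd
  · have h1 : ζ = 1 := by
      rw [hζ, hzero.2 hd, AddChar.map_zero_eq_one]
    rw [h1]
    simp
  · have h1 : ζ ≠ 1 := by
      intro h1
      apply hd
      apply hzero.1
      apply ZMod.injective_stdAddChar
      rw [← hζ, h1, AddChar.map_zero_eq_one]
    have hW1 : ζ ^ W = 1 := by
      rw [← hpow W]
      have e3 : W * (Q / W) = Q := by rw [hdiv, hh]
      rw [e3, ZMod.natCast_self, zero_mul, AddChar.map_zero_eq_one]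
    have hg := geom_sum_mul ζ W
    rw [hW1, sub_self] at hg
    rcases mul_eq_zero.1 hg with h2 | h2
    · exact h2
    · exact absurd (sub_eq_zero.1 h2) h1

theorem pf_KPL (hFJT : T_FJT) : T_KPL := by
  intro Q W T _ hW hWQ hTQ hWT v
  have hQ : 0 < Q := Nat.pos_of_ne_zero (NeZero.ne Q)
  obtain ⟨J, hJ⟩ := hTQ
  have hT : 2 ≤ T := by omega
  have hdiv : Q / T = J := by
    rw [hJ]
    exact Nat.mul_div_cancel_left J (by omega)
  have hJ0 : 1 ≤ J := by
    rcases Nat.eq_zero_or_pos J with h0 | h0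
    · rw [h0, mul_zero] at hJ
      omega
    · exact h0
  have hJ2 : 2 * J ≤ Q := by
    rw [hJ]
    exact Nat.mul_le_mul_right J hT
  obtain ⟨-, hF⟩ := hFJT Q J hJ0 hJ2
  have hsum : ∑ j : ZMod Q, (kap Q W T j : ℂ) * ZMod.stdAddChar (j * v) =
      (if W ∣ v.val then (W : ℂ) else 0) * ((J * fj Q J v : ℝ) : ℂ) := by
    rw [← char_sum Q W hW hWQ v, ← hF v, Finset.sum_mul]
    unfold kap
    rw [hdiv]
    simp only [Complex.ofReal_sum, Finset.sum_mul]
    rw [Finset.sum_comm]
    refine Finset.sum_congr rfl fun a _ => ?_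
    rw [Finset.mul_sum]
    rw [← Equiv.sum_comp (Equiv.addRight (((a * (Q / W) : ℕ) : ZMod Q)))]
    refine Finset.sum_congr rfl fun j _ => ?_
    simp only [Equiv.coe_addRight]
    rw [add_sub_cancel_right, add_mul, AddChar.map_add_eq_mul]
    ring
  rw [hsum]
  unfold lam
  rw [hdiv]
  split_ifs with hd
  · have hQT : (Q : ℂ) = T * J := by
      rw [hJ]
      push_cast
      ring
    have hT0 : (T : ℂ) ≠ 0 := by
      have : T ≠ 0 := by omega
      exact_mod_cast this
    have hJc : (J : ℂ) ≠ 0 := by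
      have : J ≠ 0 := by omega
      exact_mod_cast this
    rw [hQT]
    push_cast
    field_simp
  · simp

end Pool.Agent.H72.RQ
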