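import Pool.Agent.H29.RQ.Targets
import Pool.Agent.H67.RD.PF

/-!
# Row PFX of rdq_modules (helper72): the product formula for the discriminant of a finite set
-/

set_option autoImplicit false

namespace Pool.Agent.H72.RQ

open NumberField Height Finset Real Pool.Agent.H24.RD Pool.Agent.H23.RDD Pool.Agent.H29.RQ
open Pool.Agent.H67.RD

/-- the product of the differences -/
theorem px_D {M : Type} [Field M] [DecidableEq M] (X : Finset M) :
    ∏ x ∈ X, ∏ y ∈ X.erase x, (x - y) ≠ 0 := by
  rw [prod_ne_zero_iff]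
  intro x _
  rw [prod_ne_zero_iff]
  intro y hy
  rw [mem_erase] at hy
  exact sub_ne_zero.2 (Ne.symm hy.1)

/-- a double sum -/
theorem px_sum {M : Type} [DecidableEq M] (X : Finset M) (f : M → ℝ) :
    ∑ x ∈ X, ∑ y ∈ X.erase x, (f x + f y) = ((2 * (X.card - 1) : ℕ) : ℝ) * ∑ x ∈ X, f x := by
  have h1 : ∀ x ∈ X, ∑ y ∈ X.erase x, (f x + f y) =
      ((X.card - 1 : ℕ) : ℝ) * f x + (∑ y ∈ X, f y - f x) := by
    intro x hx
    rw [sum_add_distrib, sum_const, card_erase_of_mem hx, nsmul_eq_mul,
      ← sum_erase_add X f hx]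
    ring
  rw [sum_congr rfl h1, sum_add_distrib, sum_sub_distrib, sum_const, nsmul_eq_mul, ← mul_sum]
  rcases Nat.eq_zero_or_pos X.card with h0 | h0
  · rw [h0]
    rw [card_eq_zero] at h0
    rw [h0]
    simp
  · push_cast [Nat.cast_sub h0]
    ring

/-- the logarithm of the discriminant -/
theorem px_log {M : Type} [Field M] [DecidableEq M] (v : AbsoluteValue M ℝ) (X : Finset M) :
    Real.log (v (∏ x ∈ X, ∏ y ∈ X.erase x, (x - y))) =
      Real.log (∏ x ∈ X, ∏ y ∈ X.erase x, dch v x y) +
        ((2 * (X.card - 1) : ℕ) : ℝ) * ∑ x ∈ X, Real.log (max (v x) 1) := by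
  have hm : ∀ x : M, (0 : ℝ) < max (v x) 1 := fun x => lt_of_lt_of_le one_pos (le_max_right _ _)
  have hd : ∀ x ∈ X, ∀ y ∈ X.erase x, 0 < v (x - y) := by
    intro x _ y hy
    rw [mem_erase] at hy
    exact v.pos (sub_ne_zero.2 (Ne.symm hy.1))
  have hdc : ∀ x ∈ X, ∀ y ∈ X.erase x, dch v x y ≠ 0 := by
    intro x hx y hy
    exact (div_pos (hd x hx y hy) (mul_pos (hm x) (hm y))).ne'
  rw [map_prod, Real.log_prod (fun x hx => ?_), Real.log_prod (fun x hx => ?_), ← px_sum,
    ← sum_add_distrib]
  · refine sum_congr rfl fun x hx => ?_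
    rw [map_prod, Real.log_prod (fun y hy => (hd x hx y hy).ne'),
      Real.log_prod (fun y hy => hdc x hx y hy), ← sum_add_distrib]
    refine sum_congr rfl fun y hy => ?_
    unfold dch
    rw [Real.log_div (hd x hx y hy).ne' (mul_pos (hm x) (hm y)).ne',
      Real.log_mul (hm x).ne' (hm y).ne']
    ring
  · rw [prod_ne_zero_iff]
    exact fun y hy => hdc x hx y hy
  · rw [map_prod, prod_ne_zero_iff]
    exact fun y hy => (hd x hx y hy).ne'

theorem px_fin {M : Type} [Field M] [NumberField M] (v : FinitePlace M) (x y : M) :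
    dch v.1 x y ≤ 1 := by
  unfold dch
  have m1 : (0 : ℝ) < max (v.1 x) 1 := lt_of_lt_of_le one_pos (le_max_right _ _)
  have m2 : (0 : ℝ) < max (v.1 y) 1 := lt_of_lt_of_le one_pos (le_max_right _ _)
  rw [div_le_one (mul_pos m1 m2)]
  have h : v (x + -y) ≤ max (v x) (v (-y)) := FinitePlace.add_le v x (-y)
  rw [← sub_eq_add_neg] at h
  have h' : v (-y) = v y := map_neg_eq_map v _
  rw [h'] at h
  refine le_trans h (max_le ?_ ?_)
  · exact le_trans (le_max_left _ 1)
      (le_mul_of_one_le_right (le_trans zero_le_one (le_max_right _ _)) (le_max_right _ _))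
  · exact le_trans (le_max_left _ 1)
      (le_mul_of_one_le_left (le_trans zero_le_one (le_max_right _ _)) (le_max_right _ _))

/-- the archimedean places -/
theorem px_inf (hV : T_VDM) {M : Type} [Field M] [NumberField M] [DecidableEq M]
    (w : InfinitePlace M) (X : Finset M) :
    Real.log (w (∏ x ∈ X, ∏ y ∈ X.erase x, (x - y))) ≤ 2 * X.card * Real.log X.card +
      ((2 * (X.card - 1) : ℕ) : ℝ) * ∑ x ∈ X, log⁺ (w x) := by
  classical
  have hinj : Function.Injective w.embedding := w.embedding.injective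
  have h1 := hV (X.image w.embedding)
  rw [card_image_of_injective _ hinj, prod_image (fun a _ b _ h => hinj h),
    prod_image (fun a _ b _ h => hinj h)] at h1
  have h2 : ∏ x ∈ X, ∏ y ∈ (X.image w.embedding).erase (w.embedding x), ‖w.embedding x - y‖ =
      w (∏ x ∈ X, ∏ y ∈ X.erase x, (x - y)) := by
    rw [map_prod]
    refine prod_congr rfl fun x hx => ?_
    rw [map_prod]
    have h3 : (X.image w.embedding).erase (w.embedding x) = (X.erase x).image w.embedding := by
      ext z
      simp only [mem_erase, mem_image]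
      constructor
      · rintro ⟨hz, a, ha, rfl⟩
        exact ⟨a, ⟨fun h => hz (by rw [h]), ha⟩, rfl⟩
      · rintro ⟨a, ⟨ha1, ha2⟩, rfl⟩
        exact ⟨fun h => ha1 (hinj h), a, ha2, rfl⟩
    rw [h3, prod_image (fun a _ b _ h => hinj h)]
    refine prod_congr rfl fun y hy => ?_
    rw [← map_sub, InfinitePlace.norm_embedding_eq]
  have h1' : w (∏ x ∈ X, ∏ y ∈ X.erase x, (x - y)) ≤ ((X.card : ℝ) ^ (2 * X.card)) *
      ∏ x ∈ X, (max (w x) 1) ^ (2 * (X.card - 1)) := by
    rw [← h2]
    refine le_trans (le_of_eq ?_) (le_trans h1 (le_of_eq ?_))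
    · refine prod_congr rfl fun x hx => ?_
      refine prod_congr ?_ fun _ _ => rfl
      ext z
      simp only [mem_erase]
    · congr 1
      refine prod_congr rfl fun x hx => ?_
      rw [InfinitePlace.norm_embedding_eq]
  have hpos : 0 < w (∏ x ∈ X, ∏ y ∈ X.erase x, (x - y)) := InfinitePlace.pos_iff.2 (px_D X)
  have hm : ∀ x : M, (0 : ℝ) < max (w x) 1 := fun x => lt_of_lt_of_le one_pos (le_max_right _ _)
  have hP : (0 : ℝ) < ∏ x ∈ X, (max (w x) 1) ^ (2 * (X.card - 1)) :=
    prod_pos fun x _ => pow_pos (hm x) _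
  have hN : (0 : ℝ) < (X.card : ℝ) ^ (2 * X.card) := by
    rcases Nat.eq_zero_or_pos X.card with h0 | h0
    · rw [h0]; norm_num
    · positivity
  have h4 := Real.log_le_log hpos h1'
  rw [Real.log_mul hN.ne' hP.ne', Real.log_pow, Real.log_prod (fun x _ => (pow_pos (hm x) _).ne')]
    at h4
  refine le_trans h4 (le_of_eq ?_)
  push_cast
  congr 1
  rw [mul_sum]
  refine sum_congr rfl fun x _ => ?_
  rw [Real.log_pow, pf_posLog (apply_nonneg w x)]
  push_cast
  rfl

theorem pf_PFX (h : T_VDM) : T_PFX := by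
  classical
  intro M _ _ p hp
  have hp0 : (p : M) ≠ 0 := by exact_mod_cast hp.ne_zero
  have hle : ∀ v : FinitePlace M, v (p : M) ≤ 1 := by
    intro v
    have := FinitePlace.norm_le_one M v.maximalIdeal (p : 𝓞 M)
    rw [FinitePlace.norm_embedding_eq] at this
    rw [map_natCast] at this
    exact this
  have hPfin : {v : FinitePlace M | v (p : M) < 1}.Finite := by
    refine (FinitePlace.hasFiniteMulSupport hp0).subset ?_
    intro v hv
    rw [Function.mem_mulSupport]
    exact ne_of_lt hv
  set P : Finset (FinitePlace M) := hPfin.toFinset with hPdef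
  have hP : ∀ v, v ∈ P ↔ v (p : M) < 1 := by
    intro v
    rw [hPdef, Set.Finite.mem_toFinset]
    rfl
  have hPs : Function.mulSupport (fun v : FinitePlace M => v (p : M)) ⊆ P := by
    intro v hv
    rw [Function.mem_mulSupport] at hv
    exact (hP v).2 (lt_of_le_of_ne (hle v) hv)
  have hPS : (Module.finrank ℚ M : ℝ) * Real.log p + ∑ v ∈ P, Real.log (v (p : M)) = 0 := by
    have := pf_formula P (p : M) hp0 hPs
    rw [← this]
    congr 1
    rw [← InfinitePlace.sum_mult_eq, Nat.cast_sum, sum_mul]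
    refine sum_congr rfl fun w _ => ?_
    rw [InfinitePlace.map_natCast]
  refine ⟨P, hP, ?_, ?_⟩
  · rw [sum_neg_distrib]
    have : ∑ v ∈ P, Real.log (v.1 (p : M)) = ∑ v ∈ P, Real.log (v (p : M)) := rfl
    rw [this]
    linarith
  · intro X G hG
    have hG' : ∀ v ∈ P, ∏ x ∈ X, ∏ y ∈ X.erase x, dch v.1 x y ≤ v (p : M) ^ (G v) := by
      intro v hv
      convert hG v hv
      rfl
    set D : M := ∏ x ∈ X, ∏ y ∈ X.erase x, (x - y) with hD
    have hD0 : D ≠ 0 := px_D X
    have hfin : ((Function.mulSupport fun v : FinitePlace M => v D) ∪ ((P : Set (FinitePlace M)) ∪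
        (⋃ x ∈ X, Function.support fun v : FinitePlace M => log⁺ (v x)))).Finite :=
      (FinitePlace.hasFiniteMulSupport hD0).union
        (P.finite_toSet.union (Set.Finite.biUnion X.finite_toSet fun x _ => pf_supp x))
    set S : Finset (FinitePlace M) := hfin.toFinset with hS
    have hS1 : Function.mulSupport (fun v : FinitePlace M => v D) ⊆ S := by
      intro v hv
      rw [hS, Set.Finite.coe_toFinset]
      exact Or.inl hv
    have hS2 : P ⊆ S := by
      intro v hv
      rw [hS, Set.Finite.mem_toFinset]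
      exact Or.inr (Or.inl hv)
    have hS3 : ∀ x ∈ X, Function.support (fun v : FinitePlace M => log⁺ (v x)) ⊆ S := by
      intro x hx v hv
      rw [hS, Set.Finite.coe_toFinset]
      exact Or.inr (Or.inr (Set.mem_iUnion₂.2 ⟨x, hx, hv⟩))
    have hU : ∀ x ∈ X, logHeight₁ x = (∑ w : InfinitePlace M, (w.mult : ℝ) * log⁺ (w x)) +
        ∑ v ∈ S, log⁺ (v x) := by
      intro x hx
      rw [NumberField.logHeight₁_eq, finsum_eq_sum_of_support_subset _ (hS3 x hx)]
    have hpf := pf_formula S D hD0 hS1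
    set c : ℝ := ((2 * (X.card - 1) : ℕ) : ℝ) with hc
    -- infinite places
    have h3 : ∑ w : InfinitePlace M, (w.mult : ℝ) * Real.log (w D) ≤
        (Module.finrank ℚ M : ℝ) * (2 * X.card * Real.log X.card) +
        c * ∑ x ∈ X, ∑ w : InfinitePlace M, (w.mult : ℝ) * log⁺ (w x) := by
      rw [← InfinitePlace.sum_mult_eq, Nat.cast_sum, sum_mul, sum_comm, mul_sum, ← sum_add_distrib]
      refine sum_le_sum fun w _ => ?_
      rw [← mul_sum]
      have := mul_le_mul_of_nonneg_left (px_inf h w X) (Nat.cast_nonneg (α := ℝ) w.mult)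
      refine le_trans this (le_of_eq ?_)
      rw [hc]
      ring
    -- finite places
    have h4 : ∀ v ∈ S, Real.log (v D) ≤ (if v ∈ P then G v * Real.log (v (p : M)) else 0) +
        c * ∑ x ∈ X, log⁺ (v x) := by
      intro v _
      have e1 := px_log v.1 X
      have e2 : ∑ x ∈ X, log⁺ (v x) = ∑ x ∈ X, Real.log (max (v.1 x) 1) :=
        sum_congr rfl fun x _ => pf_posLog (apply_nonneg v _)
      rw [e2]
      have e3 : Real.log (v D) = Real.log (v.1 (∏ x ∈ X, ∏ y ∈ X.erase x, (x - y))) := rfl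
      rw [e3, e1]
      refine add_le_add ?_ le_rfl
      have hpos : 0 < ∏ x ∈ X, ∏ y ∈ X.erase x, dch v.1 x y := by
        refine prod_pos fun x _ => prod_pos fun y hy => ?_
        rw [mem_erase] at hy
        exact div_pos (v.1.pos (sub_ne_zero.2 (Ne.symm hy.1)))
          (mul_pos (lt_of_lt_of_le one_pos (le_max_right _ _))
            (lt_of_lt_of_le one_pos (le_max_right _ _)))
      split_ifs with hv
      · have ep : 0 < v (p : M) := FinitePlace.pos_iff.2 hp0
        have := Real.log_le_log hpos (hG' v hv)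
        rw [Real.log_rpow ep] at this
        exact this
      · apply Real.log_nonpos hpos.le
        refine prod_le_one (fun x _ => prod_nonneg fun y _ => ?_) (fun x _ =>
          prod_le_one (fun y _ => ?_) (fun y _ => px_fin v x y))
        · exact div_nonneg (apply_nonneg _ _) (mul_nonneg (le_trans zero_le_one (le_max_right _ _))
            (le_trans zero_le_one (le_max_right _ _)))
        · exact div_nonneg (apply_nonneg _ _) (mul_nonneg (le_trans zero_le_one (le_max_right _ _))
            (le_trans zero_le_one (le_max_right _ _)))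
    have h5 := sum_le_sum h4
    rw [sum_add_distrib, ← sum_filter, ← mul_sum, sum_comm] at h5
    have hf : S.filter (fun v => v ∈ P) = P := by
      ext v
      rw [mem_filter]
      exact ⟨fun h => h.2, fun h => ⟨hS2 h, h⟩⟩
    rw [hf] at h5
    have h6 : ∑ x ∈ X, logHeight₁ x =
        ∑ x ∈ X, (∑ w : InfinitePlace M, (w.mult : ℝ) * log⁺ (w x)) +
          ∑ x ∈ X, ∑ v ∈ S, log⁺ (v x) := by
      rw [← sum_add_distrib]
      exact sum_congr rfl hU
    have h7 : 0 ≤ ∑ x ∈ X, logHeight₁ x := sum_nonneg fun x _ => zero_le_logHeight₁ x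
    have h8 : c ≤ 2 * X.card := by
      rw [hc]
      push_cast
      have : ((X.card - 1 : ℕ) : ℝ) ≤ X.card := by exact_mod_cast Nat.sub_le _ _
      linarith
    have h9 : c * ∑ x ∈ X, logHeight₁ x ≤ 2 * X.card * ∑ x ∈ X, logHeight₁ x :=
      mul_le_mul_of_nonneg_right h8 h7
    have h10 : ∑ v ∈ P, (- Real.log (v.1 (p : M))) * G v =
        - ∑ v ∈ P, G v * Real.log (v (p : M)) := by
      rw [← sum_neg_distrib]
      refine sum_congr rfl fun v _ => ?_
      change (- Real.log (v (p : M))) * G v = _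
      ring
    rw [h10]
    rw [h6, mul_add] at h9
    rw [h6, mul_add]
    linarith

end Pool.Agent.H72.RQ
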